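import Mathlib
import Pool.Agent.W307.SE.Stm
import Pool.Agent.W214.RK2.Desc4

/-!
# TSE-SELD: the 2-Selmer group and the local count
-/

namespace Pool.Agent.W612.SE

open Finset Pool.Agent.W262.RK Pool.Agent.W307.SE Pool.Agent.W214.RK2 Pool.Agent.W599.RK

/-- valuation of a squarefree integer -/
lemma even_val (a : ℤ) (ha : Squarefree a) (q : ℕ) (hq : q.Prime) :
    Even (padicValRat q (a : ℚ)) ↔ ¬ (q : ℤ) ∣ a := by
  have : Fact q.Prime := ⟨hq⟩
  have h1 : padicValRat q (a : ℚ) = padicValRat q ((a.natAbs : ℕ) : ℚ) := by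
    rw [padicValRat.of_int, padicValRat.of_nat, padicValInt]
  have h2 : Squarefree a.natAbs := Int.squarefree_natAbs.mpr ha
  rw [h1, val_sqfree _ q h2]
  rw [Int.natCast_dvd]
  by_cases h : q ∣ a.natAbs
  · simp [h]
  · simp [h]

/-- two squarefree integers of the same sign with the same prime divisors are equal -/
lemma eq_of_dvd (a b : ℤ) (ha : Squarefree a) (hb : Squarefree b) (hs : 0 < a ↔ 0 < b)
    (h : ∀ p : ℕ, p.Prime → dv p a = dv p b) : a = b := by
  have ha' : Squarefree a.natAbs := Int.squarefree_natAbs.mpr ha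
  have hb' : Squarefree b.natAbs := Int.squarefree_natAbs.mpr hb
  have hpf : a.natAbs.primeFactors = b.natAbs.primeFactors := by
    ext p
    rw [Nat.mem_primeFactors, Nat.mem_primeFactors]
    constructor
    · rintro ⟨h1, h2, h3⟩
      refine ⟨h1, ?_, hb'.ne_zero⟩
      have h4 := h p h1
      unfold dv at h4
      exact Int.natCast_dvd.mp ((decide_eq_decide.mp h4).mp (Int.natCast_dvd.mpr h2))
    · rintro ⟨h1, h2, h3⟩
      refine ⟨h1, ?_, ha'.ne_zero⟩
      have h4 := h p h1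
      unfold dv at h4
      exact Int.natCast_dvd.mp ((decide_eq_decide.mp h4).mpr (Int.natCast_dvd.mpr h2))
  have hab : a.natAbs = b.natAbs := by
    rw [← Nat.prod_primeFactors_of_squarefree ha', ← Nat.prod_primeFactors_of_squarefree hb', hpf]
  have ha0 := ha.ne_zero
  have hb0 := hb.ne_zero
  omega

/-- the outer data of a pair -/
noncomputable def outs (OP : Finset ℕ) (d : ℤ × ℤ) : Out OP := by
  classical exact
  (decide (0 < d.1), decide (0 < d.2),
    fun q => (decide ((q.1 : ℤ) ∣ d.1), decide ((q.1 : ℤ) ∣ d.2)))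

theorem seld_of (hgood : Pool.Agent.W307.SE.GOODP) : Pool.Agent.W307.SE.SELD := by
  classical
  intro m L A B hA hB hAB hodd hm hL hloc
  set OP : Finset ℕ := (2 * A * B * (A - B)).natAbs.primeFactors.filter (fun q => ¬ q ∣ m)
    with hOPdef
  have hD0 : 2 * A * B * (A - B) ≠ 0 :=
    mul_ne_zero (mul_ne_zero (mul_ne_zero two_ne_zero hA) hB) (sub_ne_zero.mpr hAB)
  have hOP : ∀ q : ℕ, q.Prime → (q : ℤ) ∣ 2 * A * B * (A - B) → ¬ q ∣ m → q ∈ OP := by
    intro q hq hqd hqs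
    rw [hOPdef, Finset.mem_filter, Nat.mem_primeFactors]
    exact ⟨⟨hq, Int.natCast_dvd.mp hqd, Int.natAbs_ne_zero.mpr hD0⟩, hqs⟩
  set F : Finset (ℕ × ℕ) := (m.divisors ×ˢ m.divisors).filter (fun d : ℕ × ℕ =>
    ∀ p ∈ m.primeFactors, L p (dv p d.1) (dv p d.2) (sgn p d.1) (sgn p d.2)) with hF
  have hFcard : F.card = NL m L := by
    unfold NL
    rw [hF]
  -- comparison of two pairs with the same outer data
  have hcmp : ∀ d d' : ℤ × ℤ, d ∈ Sel A B → d' ∈ Sel A B → outs OP d = outs OP d' →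
      (0 < d.1 ↔ 0 < d'.1) ∧ (0 < d.2 ↔ 0 < d'.2) ∧
      (∀ q : ℕ, q.Prime → ¬ q ∣ m →
        ((q : ℤ) ∣ d.1 ↔ (q : ℤ) ∣ d'.1) ∧ ((q : ℤ) ∣ d.2 ↔ (q : ℤ) ∣ d'.2)) := by
    intro d d' hd hd' ho
    have h1 : decide (0 < d.1) = decide (0 < d'.1) := congrArg Prod.fst ho
    have h23 := congrArg Prod.snd ho
    have h2 : decide (0 < d.2) = decide (0 < d'.2) := congrArg Prod.fst h23
    have h3 := congrArg Prod.snd h23
    refine ⟨decide_eq_decide.mp h1, decide_eq_decide.mp h2, fun q hq hqm => ?_⟩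
    by_cases hD : (q : ℤ) ∣ 2 * A * B * (A - B)
    · have h4 := congrFun h3 ⟨q, hOP q hq hD hqm⟩
      have h5 : decide ((q : ℤ) ∣ d.1) = decide ((q : ℤ) ∣ d'.1) := congrArg Prod.fst h4
      have h6 : decide ((q : ℤ) ∣ d.2) = decide ((q : ℤ) ∣ d'.2) := congrArg Prod.snd h4
      exact ⟨decide_eq_decide.mp h5, decide_eq_decide.mp h6⟩
    · have : Fact q.Prime := ⟨hq⟩
      obtain ⟨a1, a2⟩ := hgood q A B d.1 d.2 hD hd.1 hd.2.1 (hd.2.2.2 q)
      obtain ⟨b1, b2⟩ := hgood q A B d'.1 d'.2 hD hd'.1 hd'.2.1 (hd'.2.2.2 q)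
      exact ⟨⟨fun h => absurd h a1, fun h => absurd h b1⟩,
        ⟨fun h => absurd h a2, fun h => absurd h b2⟩⟩
  -- the local data
  have hdat : ∀ a b : ℤ, Squarefree a → Squarefree b → (0 < a ↔ 0 < b) →
      (∀ q : ℕ, q.Prime → ¬ q ∣ m → ((q : ℤ) ∣ a ↔ (q : ℤ) ∣ b)) →
      ∀ p : ℕ, p.Prime → dv p (dd m a b) = xor (dv p a) (dv p b) ∧
        sgn p (dd m a b) = xor (sgn p a) (sgn p b) := by
    intro a b ha hb hs hv p hp
    have h1 := dd_sq m hm (a : ℚ) (b : ℚ) (by exact_mod_cast ha.ne_zero)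
      (by exact_mod_cast hb.ne_zero) (by exact_mod_cast hs) (by
        intro q hq hqm
        rw [even_val a ha q hq, even_val b hb q hq, hv q hq hqm])
    have h2 : IsSquare (a * b * ((dd m a b : ℕ) : ℤ)) := by
      rw [← Rat.isSquare_intCast_iff]
      push_cast
      exact h1
    exact key p hp a b _ ha hb
      (Int.squarefree_natCast.mpr (hm.squarefree_of_dvd (dd_dvd m hm a b))) h2
  have hFmem : ∀ d d' : ℤ × ℤ, d ∈ Sel A B → d' ∈ Sel A B → outs OP d = outs OP d' →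
      (dd m d.1 d'.1, dd m d.2 d'.2) ∈ F := by
    intro d d' hd hd' ho
    obtain ⟨c1, c2, c3⟩ := hcmp d d' hd hd' ho
    rw [hF, Finset.mem_filter, Finset.mem_product]
    refine ⟨⟨Nat.mem_divisors.mpr ⟨dd_dvd m hm _ _, hm.ne_zero⟩,
      Nat.mem_divisors.mpr ⟨dd_dvd m hm _ _, hm.ne_zero⟩⟩, fun p hp => ?_⟩
    rw [Nat.mem_primeFactors] at hp
    have : Fact p.Prime := ⟨hp.1⟩
    obtain ⟨x, y, hy, hxy, s1, s2⟩ := hd.2.2.2 p
    obtain ⟨x', y', hy', hxy', s1', s2'⟩ := hd'.2.2.2 p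
    have l1 := hloc p hp.2.1 x y hy hxy d.1 d.2 hd.1 hd.2.1 s1 s2
    have l2 := hloc p hp.2.1 x' y' hy' hxy' d'.1 d'.2 hd'.1 hd'.2.1 s1' s2'
    obtain ⟨k1, k2⟩ := hdat d.1 d'.1 hd.1 hd'.1 c1 (fun q hq hqm => (c3 q hq hqm).1) p hp.1
    obtain ⟨k3, k4⟩ := hdat d.2 d'.2 hd.2.1 hd'.2.1 c2 (fun q hq hqm => (c3 q hq hqm).2) p hp.1
    show L p (dv p (dd m d.1 d'.1)) (dv p (dd m d.2 d'.2))
      (sgn p (dd m d.1 d'.1)) (sgn p (dd m d.2 d'.2))
    rw [k1, k2, k3, k4]
    exact (hL p hp.1 hp.2.1).2 _ _ _ _ _ _ _ _ l1 l2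
  -- the counting map
  by_cases hne : (Sel A B).Nonempty
  · have : Nonempty (Sel A B) := hne.to_subtype
    obtain ⟨rep, hrep⟩ : ∃ rep : Out OP → Sel A B, ∀ d : Sel A B,
        outs OP (rep (outs OP d.1)).1 = outs OP d.1 :=
      ⟨Function.invFun (fun d : Sel A B => outs OP d.1), fun d =>
        Function.invFun_eq (f := fun d : Sel A B => outs OP d.1) ⟨d, rfl⟩⟩
    obtain ⟨kk, hkk⟩ : ∃ kk : Sel A B → Out OP × (ℕ × ℕ), ∀ d : Sel A B,
        kk d = (outs OP d.1, (dd m d.1.1 (rep (outs OP d.1)).1.1,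
          dd m d.1.2 (rep (outs OP d.1)).1.2)) := ⟨_, fun d => rfl⟩
    have hmem : ∀ d : Sel A B, kk d ∈ (Finset.univ : Finset (Out OP)) ×ˢ F := by
      intro d
      rw [hkk, Finset.mem_product]
      exact ⟨Finset.mem_univ _, hFmem d.1 _ d.2 (rep _).2 (hrep d).symm⟩
    have hinj : Function.Injective kk := by
      intro d e hde
      rw [hkk, hkk] at hde
      have h1 : outs OP d.1 = outs OP e.1 := congrArg Prod.fst hde
      have h2 := congrArg (fun z => z.2.1) hde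
      have h3 := congrArg (fun z => z.2.2) hde
      simp only at h2 h3
      rw [← h1] at h2 h3
      obtain ⟨c1, c2, c3⟩ := hcmp d.1 e.1 d.2 e.2 h1
      obtain ⟨u1, u2, u3⟩ := hcmp d.1 _ d.2 (rep (outs OP d.1)).2 (hrep d).symm
      obtain ⟨v1, v2, v3⟩ := hcmp e.1 (rep (outs OP d.1)).1 e.2 (rep (outs OP d.1)).2
        (h1.symm.trans (hrep d).symm)
      apply Subtype.ext
      apply Prod.ext
      · apply eq_of_dvd _ _ d.2.1 e.2.1 c1
        intro p hp
        have k1 := (hdat d.1.1 _ d.2.1 (rep (outs OP d.1)).2.1 u1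
          (fun q hq hqm => (u3 q hq hqm).1) p hp).1
        have k2 := (hdat e.1.1 _ e.2.1 (rep (outs OP d.1)).2.1 v1
          (fun q hq hqm => (v3 q hq hqm).1) p hp).1
        rw [h2, k2] at k1
        revert k1
        generalize dv p d.1.1 = a
        generalize dv p e.1.1 = b
        generalize dv p (rep (outs OP d.1)).1.1 = c
        cases a <;> cases b <;> cases c <;> simp
      · apply eq_of_dvd _ _ d.2.2.1 e.2.2.1 c2
        intro p hp
        have k1 := (hdat d.1.2 _ d.2.2.1 (rep (outs OP d.1)).2.2.1 u2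
          (fun q hq hqm => (u3 q hq hqm).2) p hp).1
        have k2 := (hdat e.1.2 _ e.2.2.1 (rep (outs OP d.1)).2.2.1 v2
          (fun q hq hqm => (v3 q hq hqm).2) p hp).1
        rw [h3, k2] at k1
        revert k1
        generalize dv p d.1.2 = a
        generalize dv p e.1.2 = b
        generalize dv p (rep (outs OP d.1)).1.2 = c
        cases a <;> cases b <;> cases c <;> simp
    have hfin : Finite (Sel A B) := by
      have hmaps : ∀ d : Sel A B, kk d ∈ (((Finset.univ : Finset (Out OP)) ×ˢ F : Finset _) :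
          Set (Out OP × (ℕ × ℕ))) := fun d => Finset.mem_coe.mpr (hmem d)
      exact Finite.of_injective
        (fun d : Sel A B => (⟨kk d, hmem d⟩ :
          {z // z ∈ (Finset.univ : Finset (Out OP)) ×ˢ F}))
        (fun d e hde => hinj (congrArg Subtype.val hde))
    refine ⟨Set.toFinite _, ?_⟩
    have hcard : (Sel A B).ncard ≤ ((Finset.univ : Finset (Out OP)) ×ˢ F).card := by
      rw [← Nat.card_coe_set_eq]
      have := Fintype.ofFinite (Sel A B)
      rw [Nat.card_eq_fintype_card, ← Finset.card_univ]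
      exact Finset.card_le_card_of_injOn kk (fun d _ => hmem d) hinj.injOn
    refine hcard.trans ?_
    rw [Finset.card_product, Finset.card_univ, card_out, hFcard]
    apply Nat.mul_le_mul_right
    exact Nat.pow_le_pow_right (by norm_num) (by omega)
  · rw [Set.not_nonempty_iff_eq_empty] at hne
    rw [hne]
    exact ⟨Set.finite_empty, by simp⟩

end Pool.Agent.W612.SE
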